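import Mathlib
import Pool.Agent.H28.Stab4

namespace Pool.Agent.Results.MP_763321_co.HalfGraphFree

/-- The half-graph of order `s`: vertices `a_i` (left) and `b_j` (right), `i, j < s`;
the only edges are `a_i b_j` with `i ≤ j`. -/
def halfGraph (s : ℕ) : SimpleGraph (Fin s ⊕ Fin s) :=
  SimpleGraph.fromRel fun x y => ∃ i j : Fin s, x = Sum.inl i ∧ y = Sum.inr j ∧ i ≤ j

open Pool.Agent.H28.Stab in
theorem result : ∀ (m : ℕ) (F : SimpleGraph (Fin m)), F.IsAcyclic → ∀ s : ℕ,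
    ∃ f : ℕ → ℕ, ∀ (n : ℕ) (G : SimpleGraph (Fin n)), IsEmpty (F ↪g G) →
      IsEmpty (halfGraph s ↪g G) → G.chromaticNumber ≤ (f G.cliqueNum : ℕ∞) := by
  intro m F hF s
  choose f hf using fun k => gs_stable F hF (2 ^ (k + 1 + 2 ^ (k + 1 + 2 * s))) (k + 1)
  refine ⟨f, fun n G h1 h2 => ?_⟩
  have hcl : G.CliqueFree (G.cliqueNum + 1) := by
    intro t ht
    have := ht.isClique.card_le_cliqueNum
    rw [ht.card_eq] at this
    omega
  refine (hf G.cliqueNum _ G (noLad_of hcl ?_) hcl h1).chromaticNumber_le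
  rintro ⟨a, b, h3, h4, h5⟩
  refine h2.false ⟨⟨Sum.elim a b, ?_⟩, ?_⟩
  · rintro (i | i) (j | j) e <;> simp only [Sum.elim_inl, Sum.elim_inr] at e
    · exact congrArg _ (le_antisymm ((h3 i j).1 (e ▸ (h3 j j).2 le_rfl))
        ((h3 j i).1 (e ▸ (h3 i i).2 le_rfl)))
    · exact absurd (e ▸ (h3 j j).2 le_rfl) (h4 j i)
    · exact absurd (e ▸ (h3 i i).2 le_rfl) (h4 i j)
    · exact congrArg _ (le_antisymm ((h3 i j).1 (e ▸ (h3 i i).2 le_rfl))
        ((h3 j i).1 (e ▸ (h3 j j).2 le_rfl)))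
  · rintro (i | i) (j | j) <;> simp [halfGraph, h3, h4, h5]
    rw [G.adj_comm, h3]

end Pool.Agent.Results.MP_763321_co.HalfGraphFree
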